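import Pool.Agent.helper12.TZ.Spec

set_option autoImplicit false

namespace Pool.Agent.TZ

open Pool.Agent.helper58.DC Pool.Agent.DI Pool.Agent.GR Pool.Agent.OB

theorem RST_Ul {G : Type} [Group G] (s y : G) (H H₁ : Subgroup G) (h : H₁ ≤ H)
    (hU : Ui s y H ≤ H₁) : ∀ i : ℕ, Ul s y H₁ i = Ul s y H i := by
  intro i
  induction i with
  | zero => rfl
  | succ i ih =>
    show nx s y H₁ (Ul s y H₁ i) = nx s y H (Ul s y H i)
    rw [ih]
    apply le_antisymm
    · rintro u ⟨h1, h2⟩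
      exact ⟨h h1, h2⟩
    · intro u hu
      have h3 : u ∈ Ul s y H (i + 1) := hu
      have h4 : u ∈ Ui s y H := (le_iSup (Ul s y H) (i + 1)) h3
      exact ⟨hU h4, hu.2⟩

/-- RST. Restriction. -/
theorem RST : RST_stmt := by
  intro G _ s y H H₁ h hU
  unfold Ui
  rw [funext (RST_Ul s y H H₁ h hU)]

end Pool.Agent.TZ
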